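import Pool.Agent.H64.CB.Targets

/-!
# From varieties over `F n` to varieties over `F (n + 1)`
-/

set_option autoImplicit false

open Matrix Pool.Agent.H64.CB

namespace Pool.Agent.H89.CB

section Basic

variable {K : Type} [Field K] [CharZero K] (W : Theory K)

lemma pj_mul_apply {n m : ℕ} (X : W.Var n) (j : ℕ) (f : Matrix (Fin (W.rk X)) (Fin m) K)
    (b : Fin (W.rk X)) (a : Fin m) :
    (W.pj X j * f) b a = if W.deg X b = j then f b a else 0 := by
  unfold Theory.pj
  rw [Matrix.diagonal_mul]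
  split_ifs <;> simp

lemma mul_pj_apply {n m : ℕ} (X : W.Var n) (j : ℕ) (f : Matrix (Fin m) (Fin (W.rk X)) K)
    (b : Fin m) (a : Fin (W.rk X)) :
    (f * W.pj X j) b a = if W.deg X a = j then f b a else 0 := by
  unfold Theory.pj
  rw [Matrix.mul_diagonal]
  split_ifs <;> simp

/-- maps of degree zero commute with the projectors -/
lemma comm_pj {n m : ℕ} (X : W.Var n) (Y : W.Var m)
    (f : Matrix (Fin (W.rk Y)) (Fin (W.rk X)) K) (hf : W.HasDeg X Y 0 f) (j : ℕ) :
    W.pj Y j * f = f * W.pj X j := by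
  ext b a
  rw [pj_mul_apply, mul_pj_apply]
  by_cases h0 : f b a = 0
  · rw [h0]
    simp
  · have h := hf b a h0
    have h' : W.deg Y b = W.deg X a := by omega
    rw [h']

lemma pj_mul_pj {n : ℕ} (X : W.Var n) (j : ℕ) : W.pj X j * W.pj X j = W.pj X j := by
  unfold Theory.pj
  rw [Matrix.diagonal_mul_diagonal]
  congr 1
  funext a
  split_ifs <;> simp

lemma hasDeg_mul {n m l : ℕ} {X : W.Var n} {Y : W.Var m} {Z : W.Var l} {r s : ℤ}
    {f : Matrix (Fin (W.rk Y)) (Fin (W.rk X)) K} {g : Matrix (Fin (W.rk Z)) (Fin (W.rk Y)) K}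
    (hf : W.HasDeg X Y r f) (hg : W.HasDeg Y Z s g) : W.HasDeg X Z (r + s) (g * f) := by
  intro c a h
  rw [Matrix.mul_apply] at h
  obtain ⟨b, -, hb⟩ := Finset.exists_ne_zero_of_sum_ne_zero h
  have h1 := hg c b (left_ne_zero_of_mul hb)
  have h2 := hf b a (right_ne_zero_of_mul hb)
  rw [h1, h2]
  ring

lemma hasDeg_pow {n : ℕ} {X : W.Var n} {L : Matrix (Fin (W.rk X)) (Fin (W.rk X)) K}
    (hL : W.HasDeg X X 1 L) (k : ℕ) : W.HasDeg X X k (L ^ k) := by
  induction k with
  | zero =>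
    intro b a h
    rw [pow_zero, Matrix.one_apply] at h
    have : b = a := by
      by_contra hc
      rw [if_neg hc] at h
      exact h rfl
    subst this
    simp
  | succ k ih =>
    rw [pow_succ']
    have := hasDeg_mul W ih hL
    push_cast
    exact this

/-- a map of degree `2 r` on `Hⁱ` -/
lemma pj_mul_deg {n : ℕ} {X : W.Var n} {r : ℤ} {f : Matrix (Fin (W.rk X)) (Fin (W.rk X)) K}
    (hf : W.HasDeg X X r f) (i j : ℕ) (hij : (j : ℤ) = i + 2 * r) :
    W.pj X j * f * W.pj X i = f * W.pj X i := by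
  ext b a
  rw [mul_pj_apply, mul_pj_apply, pj_mul_apply]
  by_cases ha : W.deg X a = i
  · rw [if_pos ha, if_pos ha]
    by_cases h0 : f b a = 0
    · rw [h0]
      simp
    · have h := hf b a h0
      rw [if_pos]
      omega
  · rw [if_neg ha, if_neg ha]

/-- the projector on a homogeneous vector -/
lemma pj_mulVec {n : ℕ} {X : W.Var n} {i : ℕ} {v : Fin (W.rk X) → K} (hv : W.InH X i v) :
    W.pj X i *ᵥ v = v := by
  funext a
  unfold Theory.pj
  rw [Matrix.mulVec_diagonal]
  by_cases h0 : v a = 0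
  · rw [h0, mul_zero]
  · rw [if_pos (hv a h0), one_mul]

lemma inH_pj {n : ℕ} (X : W.Var n) (i : ℕ) (v : Fin (W.rk X) → K) :
    W.InH X i (W.pj X i *ᵥ v) := by
  intro a ha
  unfold Theory.pj at ha
  rw [Matrix.mulVec_diagonal] at ha
  by_contra hc
  rw [if_neg hc, zero_mul] at ha
  exact ha rfl

end Basic

section Model

variable {K : Type} [Field K] [CharZero K] {W : Theory K} {n : ℕ} {X : W.Var (n + 1)}
  {L : Matrix (Fin (W.rk X)) (Fin (W.rk X)) K} (D : W.Model X L)

/-- the lifting lemma -/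
lemma lifting (hLEM : T_LEM) (hn : ∀ V : W.Var n, W.C V ∧ W.B V) (r : ℕ) (hr : r ≤ W.dim X)
    (f : Matrix (Fin (W.rk X)) (Fin (W.rk X)) K) (hf : W.HasDeg X X ((r : ℤ) - W.dim X) f)
    (hc : ∀ g ∈ D.mon, g * f = f * g)
    (h0 : D.s * f * D.s' ∈ W.cyc D.X₀ D.X₀ ((r : ℤ) - W.dim X)) :
    f ∈ W.cyc X X ((r : ℤ) - W.dim X) := by
  obtain ⟨w, hw, hjw, hhw⟩ := D.fixed r f hf hc
  have h1 : D.h *ᵥ w ∈ W.alg D.V ((r : ℤ) + 1) := by
    rw [hhw]
    exact D.k_alg r _ h0
  obtain ⟨u, hu, hhu⟩ := hLEM K W n D.V (hn D.V).1 (hn D.V).2 D.M D.M_mem D.h D.h_mem D.comm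
    D.h_sq D.rel r (by rw [D.dim_V]; omega) w hw h1
  have h2 : D.j (w - u) = 0 := by
    refine D.j_zero _ ?_
    rw [Matrix.mulVec_sub, hhu, sub_self]
  rw [map_sub, sub_eq_zero, hjw] at h2
  rw [h2]
  exact D.j_alg r u hu

lemma s'_comm (j : ℕ) : D.s' * W.pj D.X₀ j = W.pj X j * D.s' := by
  have h := comm_pj W X D.X₀ D.s D.s_deg j
  calc D.s' * W.pj D.X₀ j = D.s' * W.pj D.X₀ j * (D.s * D.s') := by
        rw [D.right_inv, Matrix.mul_one]
    _ = D.s' * (W.pj D.X₀ j * D.s) * D.s' := by simp only [Matrix.mul_assoc]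
    _ = (D.s' * D.s) * W.pj X j * D.s' := by rw [h]; simp only [Matrix.mul_assoc]
    _ = W.pj X j * D.s' := by rw [D.left_inv, Matrix.one_mul]

lemma s'_deg : W.HasDeg D.X₀ X 0 D.s' := by
  intro b a h
  have h1 := congrFun (congrFun (s'_comm D (W.deg X b)) b) a
  rw [mul_pj_apply, pj_mul_apply, if_pos rfl] at h1
  by_contra hc
  rw [if_neg (by intro h2; apply hc; rw [h2]; ring)] at h1
  exact h h1.symm

lemma s_pow (k : ℕ) : D.s * L ^ k = (D.s * L * D.s') ^ k * D.s := by
  induction k with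
  | zero => simp
  | succ k ih =>
    rw [pow_succ, pow_succ, ← Matrix.mul_assoc, ih]
    simp only [Matrix.mul_assoc]
    rw [D.left_inv, Matrix.mul_one]

end Model

theorem pf_STP (hLEM : T_LEM) : T_STP := by
  intro K _ _ W hM n hn X
  constructor
  · -- the Künneth projectors
    intro i
    obtain ⟨L, hL⟩ := W.Lef_nonempty X
    obtain ⟨D⟩ := hM n X L hL
    have hdeg : W.HasDeg X X 0 (W.pj X i) := by
      intro b a h
      unfold Theory.pj at h
      by_cases hba : b = a
      · subst hba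
        ring
      · rw [Matrix.diagonal_apply_ne _ hba] at h
        exact absurd rfl h
    have h0 : ((W.dim X : ℕ) : ℤ) - W.dim X = 0 := sub_self _
    have h := lifting D hLEM hn (W.dim X) le_rfl (W.pj X i) (by rw [h0]; exact hdeg)
      (fun g hg => ((comm_pj W X X g (D.mon_prop g hg).2.1 i)).symm) (by
        rw [h0, ← comm_pj W X D.X₀ D.s D.s_deg i, Matrix.mul_assoc, D.right_inv, Matrix.mul_one]
        exact (hn D.X₀).1 i)
    rw [h0] at h
    exact h
  · intro L hL i hi
    obtain ⟨D⟩ := hM n X L hL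
    obtain ⟨θ, hθ, hθL⟩ := (hn D.X₀).2 _ D.s_Lef i (by rw [D.dim_X₀]; exact hi)
    rw [D.dim_X₀] at hθ hθL
    have hC := (hn D.X₀).1
    set L0 := D.s * L * D.s' with hL0
    set θ0 := W.pj D.X₀ i * θ * W.pj D.X₀ (2 * W.dim X - i) with hθ0
    have hθ0mem : θ0 ∈ W.cyc D.X₀ D.X₀ ((i : ℤ) - W.dim X) := by
      have h1 := W.mul_mem _ _ _ _ _ _ hθ _ (hC i)
      have h2 := W.mul_mem _ _ _ _ _ _ (hC (2 * W.dim X - i)) _ h1
      have e : (0 : ℤ) + ((i : ℤ) - W.dim X + 0) = (i : ℤ) - W.dim X := by ring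
      rw [e] at h2
      exact h2
    have hL0deg : W.HasDeg D.X₀ D.X₀ 1 L0 := W.cyc_deg _ _ _ _ (W.Lef_mem _ _ D.s_Lef)
    have hθ0L : θ0 * L0 ^ (W.dim X - i) * W.pj D.X₀ i = W.pj D.X₀ i := by
      have h1 := pj_mul_deg W (hasDeg_pow W hL0deg (W.dim X - i)) i (2 * W.dim X - i) (by omega)
      calc θ0 * L0 ^ (W.dim X - i) * W.pj D.X₀ i =
          W.pj D.X₀ i * θ * (W.pj D.X₀ (2 * W.dim X - i) * L0 ^ (W.dim X - i) *
            W.pj D.X₀ i) := by
            rw [hθ0]
            simp only [Matrix.mul_assoc]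
        _ = W.pj D.X₀ i * (θ * L0 ^ (W.dim X - i) * W.pj D.X₀ i) := by
            rw [h1]
            simp only [Matrix.mul_assoc]
        _ = W.pj D.X₀ i := by rw [hθL, pj_mul_pj]
    set f := D.s' * θ0 * D.s with hf
    have hsfs : D.s * f * D.s' = θ0 := by
      rw [hf]
      calc D.s * (D.s' * θ0 * D.s) * D.s' = (D.s * D.s') * θ0 * (D.s * D.s') := by
            simp only [Matrix.mul_assoc]
        _ = θ0 := by rw [D.right_inv, Matrix.one_mul, Matrix.mul_one]
    have hfdeg : W.HasDeg X X ((i : ℤ) - W.dim X) f := by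
      have h1 := hasDeg_mul W D.s_deg (W.cyc_deg _ _ _ _ hθ0mem)
      have h2 := hasDeg_mul W h1 (s'_deg D)
      have e : (0 : ℤ) + ((i : ℤ) - W.dim X) + 0 = (i : ℤ) - W.dim X := by ring
      rw [e, ← Matrix.mul_assoc] at h2
      exact h2
    have hfL : f * L ^ (W.dim X - i) * W.pj X i = W.pj X i := by
      have h1 : D.s * L ^ (W.dim X - i) = L0 ^ (W.dim X - i) * D.s := s_pow D (W.dim X - i)
      have h2 := comm_pj W X D.X₀ D.s D.s_deg i
      calc f * L ^ (W.dim X - i) * W.pj X i =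
          D.s' * θ0 * (D.s * L ^ (W.dim X - i)) * W.pj X i := by
            rw [hf]
            simp only [Matrix.mul_assoc]
        _ = D.s' * (θ0 * L0 ^ (W.dim X - i)) * (D.s * W.pj X i) := by
            rw [h1]
            simp only [Matrix.mul_assoc]
        _ = D.s' * (θ0 * L0 ^ (W.dim X - i) * W.pj D.X₀ i) * D.s := by
            rw [← h2]
            simp only [Matrix.mul_assoc]
        _ = W.pj X i * (D.s' * D.s) := by
            rw [hθ0L, s'_comm D i, Matrix.mul_assoc]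
        _ = W.pj X i := by rw [D.left_inv, Matrix.mul_one]
    have hfQ : f * W.pj X (2 * W.dim X - i) = f := by
      have h2 := comm_pj W X D.X₀ D.s D.s_deg (2 * W.dim X - i)
      calc f * W.pj X (2 * W.dim X - i) =
          D.s' * θ0 * (D.s * W.pj X (2 * W.dim X - i)) := by
            rw [hf]
            simp only [Matrix.mul_assoc]
        _ = D.s' * (W.pj D.X₀ i * θ * (W.pj D.X₀ (2 * W.dim X - i) *
            W.pj D.X₀ (2 * W.dim X - i))) * D.s := by
            rw [← h2, hθ0]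
            simp only [Matrix.mul_assoc]
        _ = f := by rw [pj_mul_pj, hf, hθ0]
    have hcomm : ∀ g ∈ D.mon, g * f = f * g := by
      intro g hg
      obtain ⟨-, hgd, hgL⟩ := D.mon_prop g hg
      have hgp := comm_pj W X X g hgd
      have hgLk : ∀ k : ℕ, g * L ^ k = L ^ k * g := fun k => by
        have : Commute g (L ^ k) := Commute.pow_right hgL k
        exact this
      have key : ∀ z : Fin (W.rk X) → K, W.InH X (2 * W.dim X - i) z →
          (g * f) *ᵥ z = (f * g) *ᵥ z := by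
        intro z hz
        obtain ⟨u, hu, hLu⟩ := W.hard_surj X L hL i hi z (fun a ha => by
          have := hz a ha
          omega)
        have hu' := pj_mulVec W hu
        have e1 : (g * f) *ᵥ z = g *ᵥ u := by
          rw [← hLu, ← Matrix.mulVec_mulVec, Matrix.mulVec_mulVec (M := f)]
          conv_lhs => rw [← hu']
          rw [Matrix.mulVec_mulVec (M := f * L ^ (W.dim X - i)), hfL, hu']
        have e2 : (f * g) *ᵥ z = g *ᵥ u := by
          rw [← hLu, Matrix.mulVec_mulVec, Matrix.mul_assoc, hgLk, ← Matrix.mul_assoc]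
          conv_lhs => rw [← hu']
          rw [Matrix.mulVec_mulVec, Matrix.mul_assoc, ← hgp, ← Matrix.mul_assoc, hfL, hgp,
            ← Matrix.mulVec_mulVec, hu']
        rw [e1, e2]
      have h3 : g * f = g * f * W.pj X (2 * W.dim X - i) := by
        rw [Matrix.mul_assoc, hfQ]
      have h4 : f * g = f * g * W.pj X (2 * W.dim X - i) := by
        calc f * g = f * W.pj X (2 * W.dim X - i) * g := by rw [hfQ]
          _ = f * (W.pj X (2 * W.dim X - i) * g) := Matrix.mul_assoc _ _ _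
          _ = f * (g * W.pj X (2 * W.dim X - i)) := by rw [hgp]
          _ = f * g * W.pj X (2 * W.dim X - i) := (Matrix.mul_assoc _ _ _).symm
      refine Matrix.ext_of_mulVec_single fun a => ?_
      have h5 := key _ (inH_pj W X (2 * W.dim X - i) (Pi.single a 1))
      rw [Matrix.mulVec_mulVec, Matrix.mulVec_mulVec] at h5
      rw [h3, h4]
      exact h5
    refine ⟨f, ?_, hfL⟩
    exact lifting D hLEM hn i hi f hfdeg hcomm (by rw [hsfs]; exact hθ0mem)

end Pool.Agent.H89.CB
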